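import Pool.Agent.helper85.PG.Spec
import Pool.Agent.helper85.PG.Spec2
import Pool.Agent.helper85.PG.Basic

set_option autoImplicit false

namespace Pool.Agent.helper85.PG

open Module

open scoped Pointwise

private theorem PP_zero_eq {p : ℕ} [Fact p.Prime] {E : Type} [NormedAddCommGroup E]
    (G : AddSubgroup (E × ZMod p)) (h : PP G 0 ≠ Finset.univ) : PP G 0 = {0} := by
  apply Finset.eq_singleton_iff_unique_mem.2
  refine ⟨zero_mem_PP G le_rfl, ?_⟩
  intro y hy
  by_contra hy0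
  apply h
  apply Finset.eq_univ_of_forall
  intro w
  have h1 := nat_mul_mem_PP G hy (w * y⁻¹).val
  rw [ZMod.natCast_zmod_val, mul_zero, mul_assoc, inv_mul_cancel₀ hy0, mul_one] at h1
  exact h1

private theorem exists_small {p : ℕ} [Fact p.Prime] {E : Type} [NormedAddCommGroup E]
    (G : AddSubgroup (E × ZMod p)) (hG : FB G) :
    ∃ m : ℝ, 0 < m ∧ ∀ l : ℝ, l < m → PP G l ⊆ PP G 0 := by
  classical
  have hfin : (ball G 1).Finite := hG 1
  let S : Finset ℝ := (hfin.toFinset.image (fun z => ‖z.1‖)).filter (fun x => 0 < x)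
  by_cases hS : S.Nonempty
  · refine ⟨min 1 (S.min' hS), ?_, ?_⟩
    · apply lt_min one_pos
      have := Finset.min'_mem S hS
      exact (Finset.mem_filter.1 this).2
    · intro l hl y hy
      obtain ⟨x, hx, hxl⟩ := (mem_PP G l y).1 hy
      refine (mem_PP G 0 y).2 ⟨x, hx, ?_⟩
      by_contra hpos
      push Not at hpos
      have hmem : ‖x‖ ∈ S := by
        apply Finset.mem_filter.2
        refine ⟨Finset.mem_image.2 ⟨(x, y), ?_, rfl⟩, hpos⟩
        rw [Set.Finite.mem_toFinset]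
        exact ⟨hx, (hxl.trans hl.le).trans (min_le_left _ _)⟩
      have := Finset.min'_le S _ hmem
      have h2 : l < S.min' hS := hl.trans_le (min_le_right _ _)
      linarith
  · refine ⟨1, one_pos, ?_⟩
    intro l hl y hy
    obtain ⟨x, hx, hxl⟩ := (mem_PP G l y).1 hy
    refine (mem_PP G 0 y).2 ⟨x, hx, ?_⟩
    by_contra hpos
    push Not at hpos
    apply hS
    refine ⟨‖x‖, Finset.mem_filter.2 ⟨Finset.mem_image.2 ⟨(x, y), ?_, rfl⟩, hpos⟩⟩
    rw [Set.Finite.mem_toFinset]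
    exact ⟨hx, hxl.trans hl.le⟩

theorem SHR (hPKC : PKC_stmt) (hCVR : CVR_stmt) : SHR_stmt := by
  classical
  intro p _ d P hP h0
  obtain ⟨-, -, hK⟩ := hPKC
  have hp1 : (1 : ℝ) ≤ (p : ℝ) := by exact_mod_cast (Fact.out : p.Prime).one_lt.le
  have h25 : (1 : ℝ) ≤ 25 ^ d := one_le_pow₀ (by norm_num)
  by_cases hc : ((P 1).card : ℝ) ^ 2 ≤ p
  · refine ⟨P, {0}, hP, ?_, Or.inl le_rfl, ?_, ?_⟩
    · nlinarith [sq_nonneg ((P 1).card : ℝ)]
    · rw [Finset.card_singleton, Nat.cast_one, one_mul]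
      have : (0 : ℝ) ≤ ((P 1).card : ℝ) := Nat.cast_nonneg _
      nlinarith
    · intro a ha
      exact ⟨0, Finset.mem_singleton_self _, by rw [sub_zero]; exact ha⟩
  · push Not at hc
    have hex : ∃ j : ℕ, ((P ((1 / 2 : ℝ) ^ j)).card : ℝ) ^ 2 ≤ p := by
      obtain ⟨E, i1, i2, G, h1, h2, h3, h4⟩ := hP
      obtain ⟨m, hm, hsub⟩ := exists_small G h3
      obtain ⟨j, hj⟩ := exists_pow_lt_of_lt_one hm (by norm_num : (1 / 2 : ℝ) < 1)
      refine ⟨j, ?_⟩
      have hz : PP G 0 = {0} := PP_zero_eq G (by rw [← h4]; exact h0)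
      have h5 : P ((1 / 2 : ℝ) ^ j) ⊆ {0} := by
        rw [h4, ← hz]
        exact hsub _ hj
      have h6 : (P ((1 / 2 : ℝ) ^ j)).card ≤ 1 := by
        have := Finset.card_le_card h5
        rwa [Finset.card_singleton] at this
      have h7 : ((P ((1 / 2 : ℝ) ^ j)).card : ℝ) ≤ 1 := by exact_mod_cast h6
      have h8 : (0 : ℝ) ≤ ((P ((1 / 2 : ℝ) ^ j)).card : ℝ) := Nat.cast_nonneg _
      nlinarith
    have hj := Nat.find_spec hex
    have hjm : ∀ i < Nat.find hex, ¬ ((P ((1 / 2 : ℝ) ^ i)).card : ℝ) ^ 2 ≤ p :=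
      fun i hi => Nat.find_min hex hi
    set j := Nat.find hex with hjdef
    have hj0 : j ≠ 0 := by
      intro h
      rw [h, pow_zero] at hj
      linarith
    obtain ⟨i, hi⟩ := Nat.exists_eq_succ_of_ne_zero hj0
    have hprev := hjm i (by rw [hi]; exact Nat.lt_succ_self i)
    push Not at hprev
    set l : ℝ := (1 / 2 : ℝ) ^ j with hl
    have hlpos : 0 < l := by positivity
    have hl1 : l ≤ 1 := pow_le_one₀ (by norm_num) (by norm_num)
    have h2l : 2 * l = (1 / 2 : ℝ) ^ i := by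
      rw [hl, hi, Nat.succ_eq_add_one, pow_succ]; ring
    have hA := (hK p d P hP (2 * l) l (by positivity) hlpos).1
    have hB := (hK p d P hP 2 1 (by norm_num) one_pos).1
    have e1 : (1 + 2 * (2 * l) / l) ^ d = (5 : ℝ) ^ d := by
      congr 1
      field_simp
      norm_num
    have e2 : (1 + 2 * 2 / 1 : ℝ) ^ d = (5 : ℝ) ^ d := by norm_num
    rw [e1] at hA
    rw [e2] at hB
    have h5 : (0 : ℝ) < 5 ^ d := by positivity
    have h255 : (25 : ℝ) ^ d = 5 ^ d * 5 ^ d := by rw [← mul_pow]; norm_num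
    obtain ⟨X, hX1, -, hX3, hX4⟩ := hCVR p (P 1) (P l) ⟨0, hP.zero_mem hlpos.le⟩
    refine ⟨fun R => P (2 * l * R), X, hP.scale (by positivity), ?_, Or.inr ?_, ?_, ?_⟩
    · simp only [mul_one]
      calc ((P (2 * l)).card : ℝ) ^ 2 ≤ (5 ^ d * ((P l).card : ℝ)) ^ 2 := by
            apply pow_le_pow_left₀ (Nat.cast_nonneg _) hA
        _ = 25 ^ d * ((P l).card : ℝ) ^ 2 := by rw [h255]; ring
        _ ≤ 25 ^ d * p := by gcongr
    · simp only [mul_one]
      rw [h2l]
      exact hprev.le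
    · simp only [mul_one]
      have hX5 : ((X.card : ℝ)) * ((P l).card : ℝ) ≤ ((P 2).card : ℝ) := by
        have h7 : (P 1 + P l).card ≤ (P 2).card := by
          apply Finset.card_le_card
          intro z hz
          obtain ⟨a, ha, b, hb, rfl⟩ := Finset.mem_add.1 hz
          exact hP.mono (by linarith) (hP.add_mem ha hb)
        exact_mod_cast hX4.trans h7
      calc (X.card : ℝ) * ((P (2 * l)).card : ℝ)
          ≤ (X.card : ℝ) * (5 ^ d * ((P l).card : ℝ)) := by gcongr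
        _ = 5 ^ d * ((X.card : ℝ) * ((P l).card : ℝ)) := by ring
        _ ≤ 5 ^ d * ((P 2).card : ℝ) := by gcongr
        _ ≤ 5 ^ d * (5 ^ d * ((P 1).card : ℝ)) := by gcongr
        _ = 25 ^ d * ((P 1).card : ℝ) := by rw [h255]; ring
    · intro a ha
      obtain ⟨x, hx, v, hv, v', hv', h⟩ := hX3 a ha
      refine ⟨x, hx, ?_⟩
      simp only [mul_one]
      have h8 : a - x = v' - v := by
        linear_combination h
      rw [h8]
      exact hP.mono (by linarith) (hP.sub_mem hv' hv)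

end Pool.Agent.helper85.PG
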